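import Mathlib

set_option autoImplicit false

open Polynomial IntermediateField

namespace Pool.Agent.Results.MP_870eb4_nt.PowerMaps

/-- The `n`-th iterate `f ∘ ⋯ ∘ f` of a rational function `f` (the identity `x` for `n = 0`). -/
noncomputable def iter {K : Type*} [Field K] (f : RatFunc K) (n : ℕ) : RatFunc K :=
  (fun g : RatFunc K => RatFunc.eval (algebraMap K (RatFunc K)) g f)^[n] RatFunc.X

/-- The polynomial `F_n - β G_n` over an extension `L` of `K`, where `F_n / G_n` is the `n`-th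
iterate of `f` in lowest terms and `β ∈ L`. -/
noncomputable def fiber {K : Type*} [Field K] (f : RatFunc K) (n : ℕ) (L : Type*) [Field L]
    [Algebra K L] (β : L) : L[X] :=
  (iter f n).num.map (algebraMap K L) - C β * (iter f n).denom.map (algebraMap K L)

/-- `(f, β)` is stable over `L`: all polynomials `F_n - β G_n`, `n ≥ 1`, are irreducible over
`L`. -/
def Stable {K : Type*} [Field K] (f : RatFunc K) (L : Type*) [Field L] [Algebra K L]
    (β : L) : Prop :=
  ∀ n : ℕ, 1 ≤ n → Irreducible (fiber f n L β)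

/-- `(f, α)` is eventually stable over `K`: for some `m ≥ 0` and all `β` in the algebraic closure
with `f^m(β) = α`, the pair `(f, β)` is stable over `K(β)`. -/
def EventuallyStable {K : Type*} [Field K] (f : RatFunc K) (α : K) : Prop :=
  ∃ m : ℕ, ∀ β : AlgebraicClosure K,
    (fiber f m (AlgebraicClosure K) (algebraMap K (AlgebraicClosure K) α)).IsRoot β →
      Stable f K⟮β⟯ (AdjoinSimple.gen K β)

/-- `α` is periodic for `f`: `f^n(α) = α` for some `n ≥ 1`. -/
def Periodic {K : Type*} [Field K] (f : RatFunc K) (α : K) : Prop :=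
  ∃ n : ℕ, 1 ≤ n ∧ (fiber f n K α).IsRoot α

theorem iter_pow {K : Type*} [Field K] (d n : ℕ) :
    iter ((RatFunc.X : RatFunc K) ^ d) n = algebraMap K[X] (RatFunc K) (X ^ (d ^ n)) := by
  have hX : (RatFunc.X : RatFunc K) ^ d = algebraMap K[X] (RatFunc K) (X ^ d) := by
    rw [map_pow, RatFunc.algebraMap_X]
  unfold iter
  rw [hX]
  induction n with
  | zero => simp
  | succ n ih =>
    rw [Function.iterate_succ_apply', ih, RatFunc.eval_algebraMap]
    simp only [Algebra.algebraMap_self, RingHom.id_apply, Polynomial.eval₂_pow,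
      Polynomial.eval₂_X]
    rw [← map_pow, ← pow_mul, pow_succ]

theorem fiber_pow {K : Type*} [Field K] (d n : ℕ) (L : Type*) [Field L] [Algebra K L] (β : L) :
    fiber ((RatFunc.X : RatFunc K) ^ d) n L β = X ^ (d ^ n) - C β := by
  unfold fiber
  rw [iter_pow, RatFunc.num_algebraMap, RatFunc.denom_algebraMap]
  simp

/-- If `β` has finite order prime to `q` and `q ∣ d`, then `x ^ d - β` is reducible. -/
theorem reducible {L : Type*} [Field L] {d q M : ℕ} (hq : q.Prime) (hqd : q ∣ d) (hd : d ≠ 0)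
    (hqM : ¬ q ∣ M) (β : L) (hβ : β ^ M = 1) : ¬ Irreducible (X ^ d - C β) := by
  intro hirr
  obtain ⟨e, rfl⟩ := hqd
  have he : e ≠ 0 := by rintro rfl; simp at hd
  have hcop : Nat.Coprime q M := (Nat.Prime.coprime_iff_not_dvd hq).2 hqM
  obtain ⟨w, hw0, hw1⟩ := Nat.chineseRemainder hcop 0 1
  obtain ⟨v, rfl⟩ := (Nat.modEq_zero_iff_dvd).1 hw0
  have hβv : β = (β ^ v) ^ q := by
    rw [← pow_mul, mul_comm v q]
    have := pow_eq_pow_of_modEq hw1 hβ
    rw [this, pow_one]
  have hdvd : (X ^ e - C (β ^ v) : L[X]) ∣ X ^ (q * e) - C β := by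
    have h1 : (X ^ (q * e) - C β : L[X]) = (X ^ e) ^ q - (C (β ^ v)) ^ q := by
      rw [← C_pow, ← hβv, ← pow_mul, mul_comm e q]
    rw [h1]
    exact sub_dvd_pow_sub_pow _ _ q
  have hdeg1 : (X ^ e - C (β ^ v) : L[X]).natDegree = e := natDegree_X_pow_sub_C
  have hdeg2 : (X ^ (q * e) - C β : L[X]).natDegree = q * e := natDegree_X_pow_sub_C
  obtain ⟨r, hr⟩ := hdvd
  rcases hirr.isUnit_or_isUnit hr with h | h
  · have := natDegree_eq_zero_of_isUnit h
    omega
  · have h0 := natDegree_eq_zero_of_isUnit h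
    have hne : (X ^ e - C (β ^ v) : L[X]) ≠ 0 := fun h0 => by
      rw [h0, natDegree_zero] at hdeg1; exact he hdeg1.symm
    have h3 := congrArg natDegree hr
    rw [natDegree_mul hne h.ne_zero, hdeg1, hdeg2, h0, add_zero] at h3
    have := hq.two_le
    have : 2 * e ≤ q * e := Nat.mul_le_mul_right e this
    omega

/-- In an algebraically closed field: a root of unity `α` of order prime to `q` has a `D`-th root
of finite order prime to `q`. -/
theorem exists_root {L : Type*} [Field L] [IsAlgClosed L] {D q N : ℕ} (hq : q.Prime) (hD : D ≠ 0)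
    (hN : N ≠ 0) (hqN : ¬ q ∣ N) (α : L) (hα : α ^ N = 1) :
    ∃ (β : L) (M : ℕ), β ^ D = α ∧ β ^ M = 1 ∧ ¬ q ∣ M := by
  obtain ⟨β₀, hβ₀⟩ := IsAlgClosed.exists_pow_nat_eq α (Nat.pos_of_ne_zero hD)
  have hfin : β₀ ^ (D * N) = 1 := by rw [pow_mul, hβ₀, hα]
  have hDN : D * N ≠ 0 := mul_ne_zero hD hN
  obtain ⟨s, M', hM', hsM⟩ := Nat.exists_eq_pow_mul_and_not_dvd hDN q hq.ne_one
  have hcop : Nat.Coprime (q ^ s) (M' * N) := by
    apply Nat.Coprime.pow_left
    exact Nat.Coprime.mul_right ((Nat.Prime.coprime_iff_not_dvd hq).2 hM')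
      ((Nat.Prime.coprime_iff_not_dvd hq).2 hqN)
  obtain ⟨u, hu0, hu1⟩ := Nat.chineseRemainder hcop 0 1
  obtain ⟨t, rfl⟩ := (Nat.modEq_zero_iff_dvd).1 hu0
  refine ⟨β₀ ^ (q ^ s * t), M', ?_, ?_, hM'⟩
  · rw [← pow_mul, mul_comm, pow_mul, hβ₀]
    have h1 : q ^ s * t ≡ 1 [MOD N] := hu1.of_mul_left _
    rw [pow_eq_pow_of_modEq h1 hα, pow_one]
  · rw [← pow_mul]
    have : q ^ s * t * M' = (D * N) * t := by rw [hsM]; ring
    rw [this, pow_mul, hfin, one_pow]

/-- **Eventual stability fails for power maps at suitable roots of unity.** -/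
theorem result (K : Type*) [Field K] [NumberField K] (d N p q : ℕ) (hd : d ≠ 0)
    (hp : p.Prime) (hq : q.Prime) (hpd : p ∣ d) (hqd : q ∣ d) (hpN : p ∣ N) (hqN : ¬ q ∣ N)
    (α : K) (hα : IsPrimitiveRoot α N) :
    2 ≤ max ((RatFunc.X : RatFunc K) ^ d).num.natDegree ((RatFunc.X : RatFunc K) ^ d).denom.natDegree
      ∧ ¬ Periodic ((RatFunc.X : RatFunc K) ^ d) α
      ∧ ¬ EventuallyStable ((RatFunc.X : RatFunc K) ^ d) α := by
  have hN : N ≠ 0 := by rintro rfl; simp at hqN
  have hd2 : 2 ≤ d := hp.two_le.trans (Nat.le_of_dvd (Nat.pos_of_ne_zero hd) hpd)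
  refine ⟨?_, ?_, ?_⟩
  · have hX : (RatFunc.X : RatFunc K) ^ d = algebraMap K[X] (RatFunc K) (X ^ d) := by
      rw [map_pow, RatFunc.algebraMap_X]
    rw [hX, RatFunc.num_algebraMap, natDegree_X_pow]
    exact le_max_of_le_left hd2
  · rintro ⟨n, hn, h⟩
    rw [fiber_pow, IsRoot.def, eval_sub, eval_pow, eval_X, eval_C, sub_eq_zero] at h
    -- `α ^ (d ^ n) = α` forces `N` to divide `d ^ n - 1`
    have hα0 : α ≠ 0 := by
      rintro rfl
      have := hα.pow_eq_one
      rw [zero_pow hN] at this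
      exact zero_ne_one this
    obtain ⟨k, hk⟩ : ∃ k, d ^ n = k + 1 :=
      ⟨d ^ n - 1, (Nat.succ_pred_eq_of_pos (pow_pos (Nat.pos_of_ne_zero hd) n)).symm⟩
    have h1 : α ^ k = 1 := by
      rw [hk, pow_succ] at h
      exact mul_right_cancel₀ hα0 (by rw [h, one_mul])
    have h2 : p ∣ k := hpN.trans (hα.dvd_of_pow_eq_one k h1)
    have h3 : d ^ n ≡ 1 [MOD p] := by
      rw [hk]
      have := ((Nat.modEq_zero_iff_dvd).2 h2).add_right 1
      rwa [zero_add] at this
    have h4 : d ^ n ≡ 0 [MOD p] := (Nat.modEq_zero_iff_dvd).2 (dvd_pow hpd (by omega))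
    have h5 : p ∣ 1 := (Nat.modEq_zero_iff_dvd).1 (h3.symm.trans h4)
    exact hp.one_lt.ne' (Nat.dvd_one.1 h5)
  · rintro ⟨m, hm⟩
    have hα' : (algebraMap K (AlgebraicClosure K) α) ^ N = 1 := by
      rw [← map_pow, hα.pow_eq_one, map_one]
    obtain ⟨β, M, hβ, hβM, hqM⟩ := exists_root (D := d ^ m) hq (pow_ne_zero m hd) hN hqN
      (algebraMap K (AlgebraicClosure K) α) hα'
    have hroot : (fiber ((RatFunc.X : RatFunc K) ^ d) m (AlgebraicClosure K)
        (algebraMap K (AlgebraicClosure K) α)).IsRoot β := by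
      rw [fiber_pow, IsRoot.def, eval_sub, eval_pow, eval_X, eval_C, hβ, sub_self]
    have hirr := hm β hroot 1 le_rfl
    rw [fiber_pow, pow_one] at hirr
    refine reducible hq hqd hd hqM (AdjoinSimple.gen K β) ?_ hirr
    apply (algebraMap K⟮β⟯ (AlgebraicClosure K)).injective
    rw [map_pow, AdjoinSimple.algebraMap_gen, hβM, map_one]

end Pool.Agent.Results.MP_870eb4_nt.PowerMaps
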